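import Pool.Agent.H.MP_b6680e_pr.A

/-! The final configuration of percolation with constant freezing can violate the FKG inequality. -/

open Finset

namespace Pool.Agent.Results.MP_b6680e_pr.NoFKG

section
open Classical
variable {V : Type} [Fintype V]

/-- vertex sets of the connected components of the graph of open edges `ω` -/
noncomputable def clusters (ω : Finset (Sym2 V)) : Finset (Finset V) :=
  univ.image fun v => univ.filter fun u => (SimpleGraph.fromEdgeSet (ω : Set (Sym2 V))).Reachable v u

/-- closed edges of `G` with both endpoints warm (`F` is the set of frozen vertices) -/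
noncomputable def oe (G : SimpleGraph V) (F : Finset V) (ω : Finset (Sym2 V)) : Finset (Sym2 V) :=
  univ.filter fun e => e ∈ G.edgeSet ∧ e ∉ ω ∧ ∀ v ∈ e, v ∉ F

/-- clusters that are not yet frozen -/
noncomputable def wc (F : Finset V) (ω : Finset (Sym2 V)) : Finset (Finset V) := (clusters ω).filter fun C => ¬ C ⊆ F

/-- probability that the open edges form a set in `A` after `k` jumps of the chain started at `(F, ω)` -/
noncomputable def pr (G : SimpleGraph V) (α : ℝ) (A : Set (Finset (Sym2 V))) : ℕ → Finset V → Finset (Sym2 V) → ℝ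
  | 0, _, ω => if ω ∈ A then 1 else 0
  | k + 1, F, ω => if F = univ then (if ω ∈ A then 1 else 0) else
      (∑ e ∈ oe G F ω, pr G α A k F (insert e ω) + α * ∑ C ∈ wc F ω, pr G α A k (F ∪ C) ω) /
        (#(oe G F ω) + α * #(wc F ω))

lemma br (G : SimpleGraph V) (α : ℝ) (A : Set (Finset (Sym2 V))) (k : ℕ) :
    pr G α A k = Pool.Agent.H.MP_b6680e_pr.pr G α A k := by
  induction k with
  | zero => rfl
  | succ k ih => funext F ω; rw [pr, ih]; rfl

end

theorem result : ∃ (n : ℕ) (G : SimpleGraph (Fin n)) (α : ℝ) (A B : Set (Finset (Sym2 (Fin n)))), 0 < α ∧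
    IsUpperSet A ∧ IsUpperSet B ∧ ∀ k, n + G.edgeSet.ncard ≤ k →
      pr G α (A ∩ B) k ∅ ∅ < pr G α A k ∅ ∅ * pr G α B k ∅ ∅ := by
  simpa only [br] using Pool.Agent.H.MP_b6680e_pr.main

end Pool.Agent.Results.MP_b6680e_pr.NoFKG
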